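import Mathlib
import Pool.Agent.H425R3.JL.F3
import Pool.Agent.H383.FullDS

open Filter Topology MeasureTheory
open Pool.Agent.H425R3.JL

namespace Pool.Agent.TH397.DB

/-- the error term of the divisor problem at `n²` -/
noncomputable def Dq (n : ℕ) : ℝ :=
  (∑ j ∈ Finset.Icc 1 (n ^ 2), (j.divisors.card : ℝ)) - (n : ℝ) ^ 2 * Real.log ((n : ℝ) ^ 2)
    - (2 * Real.eulerMascheroniConstant - 1) * (n : ℝ) ^ 2

lemma Edv_sq (n : ℕ) : Edv (((1 : ℕ) : ℝ) * (n : ℝ) ^ 2 + 0 * n + 0) = Dq n / √(n : ℝ) := by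
  have e : ((1 : ℕ) : ℝ) * (n : ℝ) ^ 2 + 0 * n + 0 = (n : ℝ) ^ 2 := by push_cast; ring
  rw [e]
  unfold Edv Dq
  have h1 : ⌊(n : ℝ) ^ 2⌋₊ = n ^ 2 := by
    rw [← Nat.cast_pow, Nat.floor_natCast]
  have h2 : ((n : ℝ) ^ 2) ^ (1 / 4 : ℝ) = √(n : ℝ) := by
    rw [← Real.rpow_natCast, ← Real.rpow_mul (Nat.cast_nonneg n), Real.sqrt_eq_rpow]
    norm_num
  rw [h1, h2]

lemma sqc {n : ℕ} (hn : 1 ≤ n) : 0 < √(n : ℝ) := Real.sqrt_pos.mpr (by exact_mod_cast hn)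

open Classical in
/-- resonances at squares -/
lemma mean_sq : (∑' m : ℕ,
        if 1 ≤ m ∧ ∃ k : ℤ, 2 * √((1:ℝ) * m) = k then
          (m.divisors.card : ℝ) / (Real.pi * √2)
            * (m : ℝ) ^ (-(3 / 4) : ℝ) * Real.cos (2 * Real.pi * 2 * √(m / (1:ℝ)) - Real.pi / 4)
        else 0) = (1 / (2 * Real.pi)) * ∑' k : ℕ, ((k ^ 2).divisors.card : ℝ) * (k : ℝ) ^ (-(3 / 2) : ℝ) := by
  set f : ℕ → ℝ := fun m : ℕ =>
        if 1 ≤ m ∧ ∃ k : ℤ, 2 * √((1:ℝ) * m) = k then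
          (m.divisors.card : ℝ) / (Real.pi * √2)
            * (m : ℝ) ^ (-(3 / 4) : ℝ) * Real.cos (2 * Real.pi * 2 * √(m / (1:ℝ)) - Real.pi / 4)
        else 0 with hf
  have hinj : Function.Injective (fun j : ℕ => j ^ 2) := fun a b h => Nat.pow_left_injective (by norm_num) h
  have hsup : Function.support f ⊆ Set.range (fun j : ℕ => j ^ 2) := by
    intro m hm
    rw [Function.mem_support] at hm
    simp only [hf] at hm
    by_cases h : 1 ≤ m ∧ ∃ k : ℤ, 2 * √((1:ℝ) * m) = k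
    · obtain ⟨h1, k, hk⟩ := h
      have h2 : (4 * m : ℤ) = k ^ 2 := by
        have h3 : ((4 * m : ℤ) : ℝ) = ((k ^ 2 : ℤ) : ℝ) := by
          push_cast
          rw [← hk, mul_pow, one_mul, Real.sq_sqrt (Nat.cast_nonneg m)]
          norm_num
        exact_mod_cast h3
      have h4 : Even k := by
        have : Even (k ^ 2) := by rw [← h2]; exact ⟨2 * m, by ring⟩
        rw [Int.even_pow] at this
        exact this.1
      obtain ⟨j, hj⟩ := h4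
      refine ⟨j.natAbs, ?_⟩
      have h5 : (m : ℤ) = (j.natAbs : ℤ) ^ 2 := by
        rw [Int.natAbs_sq]
        have : k = 2 * j := by omega
        rw [this] at h2
        nlinarith
      simp only
      exact_mod_cast h5.symm
    · rw [if_neg h] at hm
      exact absurd rfl hm
  rw [← hinj.tsum_eq hsup, ← tsum_mul_left]
  apply tsum_congr
  intro j
  simp only [hf]
  rcases Nat.eq_zero_or_pos j with rfl | hj
  · simp
  · have hj0 : (0:ℝ) < j := by exact_mod_cast hj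
    have hs : √(((j ^ 2 : ℕ)) : ℝ) = j := by
      push_cast
      exact Real.sqrt_sq hj0.le
    rw [if_pos ⟨Nat.one_le_pow _ _ hj, 2 * j, by rw [one_mul, hs]; push_cast; ring⟩]
    rw [div_one, hs]
    have hc : Real.cos (2 * Real.pi * 2 * (j:ℝ) - Real.pi / 4) = √2 / 2 := by
      have e : 2 * Real.pi * 2 * (j:ℝ) - Real.pi / 4 = -(Real.pi/4) + ((2 * j : ℕ) : ℝ) * (2 * Real.pi) := by
        push_cast; ring
      rw [e, Real.cos_add_nat_mul_two_pi, Real.cos_neg, Real.cos_pi_div_four]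
    rw [hc]
    have h1 : (((j^2 : ℕ)) : ℝ) ^ (-(3/4):ℝ) = (j:ℝ) ^ (-(3/2):ℝ) := by
      push_cast
      rw [← Real.rpow_natCast, ← Real.rpow_mul hj0.le]; norm_num
    rw [h1]
    have hs2 : √2 ≠ 0 := by positivity
    have hpi := Real.pi_pos.ne'
    field_simp

lemma S_eq : ∑' k : ℕ, ((k ^ 2).divisors.card : ℝ) * (k : ℝ) ^ (-(3 / 2) : ℝ) = Pool.Agent.H732R2.Dv.Sv :=
  Pool.Agent.H732R2.Dv.S_hasSum.tsum_eq

lemma front0 (μ : ProbabilityMeasure (Fin 1 → ℝ)) {g : ℂ → ℂ}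
    (h : (μ : Measure (Fin 1 → ℝ)).map (fun x => x 0) = volume.withDensity (fun x : ℝ => ENNReal.ofReal (g x).re)) :
    (μ : Measure (Fin 1 → ℝ)) (frontier {x : Fin 1 → ℝ | 0 < x 0}) = 0 := by
  have h1 : frontier {x : Fin 1 → ℝ | 0 < x 0} ⊆ {x : Fin 1 → ℝ | (0:ℝ) = x 0} :=
    frontier_lt_subset_eq continuous_const (continuous_apply 0)
  refine measure_mono_null h1 ?_
  have h2 : (μ : Measure (Fin 1 → ℝ)) {x : Fin 1 → ℝ | (0:ℝ) = x 0} =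
      (μ : Measure (Fin 1 → ℝ)).map (fun x => x 0) {0} := by
    rw [Measure.map_apply (measurable_pi_apply 0) (measurableSet_singleton 0)]
    congr 1
    ext x
    simp only [Set.mem_ofPred_eq, Set.mem_preimage, Set.mem_singleton_iff, eq_comm]
  rw [h2, h]
  exact withDensity_absolutelyContinuous _ _ (Real.volume_singleton)

open Classical in
/-- **Bias of the divisor problem at squares.** -/
theorem bias : ∃ d : ℝ, 431 / 500 ≤ d ∧ d < 1 ∧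
    (∀ ε : ℝ, 0 < ε → ∀ η : ℝ, 0 < η → ∃ N₀ : ℕ, ∀ N : ℕ, N₀ ≤ N → ∀ k : ℕ, (k : ℝ) ^ (1 / 2 + ε) ≤ N →
      |(((Finset.Ioc k (k + N)).filter (fun n : ℕ => 0 < Dq n)).card : ℝ) / N - d| ≤ η) ∧
    Tendsto (fun N : ℕ => (((Finset.Icc 1 N).filter (fun p : ℕ => p.Prime ∧ 0 < Dq p)).card : ℝ)
      / ((Finset.Icc 1 N).filter Nat.Prime).card) atTop (𝓝 d) ∧
    Tendsto (fun N : ℕ => (∑ n ∈ Finset.Icc 1 N, Dq n / √(n : ℝ)) / N) atTop
      (𝓝 ((1 / (2 * Real.pi)) * ∑' k : ℕ, ((k ^ 2).divisors.card : ℝ) * (k : ℝ) ^ (-(3 / 2) : ℝ))) ∧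
    Tendsto (fun N : ℕ => (∑ p ∈ (Finset.Icc 1 N).filter Nat.Prime, Dq p / √(p : ℝ))
      / ((Finset.Icc 1 N).filter Nat.Prime).card) atTop
      (𝓝 ((1 / (2 * Real.pi)) * ∑' k : ℕ, ((k ^ 2).divisors.card : ℝ) * (k : ℝ) ^ (-(3 / 2) : ℝ))) ∧
    ∃ V : ℝ, 0 < V ∧
      (∀ ε : ℝ, 0 < ε → ∀ η : ℝ, 0 < η → ∃ N₀ : ℕ, ∀ N : ℕ, N₀ ≤ N → ∀ k : ℕ, (k : ℝ) ^ (1 / 2 + ε) ≤ N →
        |(∑ n ∈ Finset.Ioc k (k + N), Dq n ^ 2 / (n : ℝ)) / N - V| ≤ η) ∧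
      Tendsto (fun N : ℕ => (∑ p ∈ (Finset.Icc 1 N).filter Nat.Prime, Dq p ^ 2 / (p : ℝ))
        / ((Finset.Icc 1 N).filter Nat.Prime).card) atTop (𝓝 V) := by
  obtain ⟨d, hd1, hd2, hd3⟩ := Pool.Agent.H383.Div.squares2 Pool.Agent.H383.Div.vor
  have hDq : ∀ n : ℕ, ((n : ℝ) ^ 2 * Real.log ((n : ℝ) ^ 2) + (2 * Real.eulerMascheroniConstant - 1) * (n : ℝ) ^ 2 <
        ∑ j ∈ Finset.Icc 1 (n ^ 2), (j.divisors.card : ℝ)) ↔ 0 < Dq n := by
    intro n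
    unfold Dq
    constructor <;> intro h <;> linarith
  simp only [hDq] at hd3
  obtain ⟨μ, hμ1, hμ2, hμ3, hμ4⟩ := final_gen div_data (k := 1) (fun _ => 1) (fun _ => 0) (fun _ => 0)
    (fun _ => one_pos) (fun _ n hn => by
      have : (0:ℝ) < n := by exact_mod_cast hn
      positivity)
  obtain ⟨g, hg1, hg2, hg3, hg4⟩ := hμ2 0
  have hA := front0 μ hg3
  obtain ⟨hi, hp⟩ := hμ4 _ hA
  -- the integers
  have e1 : ∀ N : ℕ, (Finset.Icc 1 N).filter (fun n : ℕ =>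
      (fun i : Fin 1 => Edv (((1:ℕ):ℝ) * (n:ℝ)^2 + 0 * n + 0)) ∈ {x : Fin 1 → ℝ | 0 < x 0}) =
      (Finset.Icc 1 N).filter (fun n : ℕ => 0 < Dq n) := by
    intro N
    apply Finset.filter_congr
    intro n hn
    rw [Finset.mem_Icc] at hn
    simp only [Set.mem_ofPred_eq, Edv_sq]
    exact div_pos_iff_of_pos_right (sqc hn.1)
  have e2 : ∀ N : ℕ, (Finset.Icc 1 N).filter (fun p : ℕ => p.Prime ∧
      (fun i : Fin 1 => Edv (((1:ℕ):ℝ) * (p:ℝ)^2 + 0 * p + 0)) ∈ {x : Fin 1 → ℝ | 0 < x 0}) =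
      (Finset.Icc 1 N).filter (fun p : ℕ => p.Prime ∧ 0 < Dq p) := by
    intro N
    apply Finset.filter_congr
    intro n hn
    rw [Finset.mem_Icc] at hn
    simp only [Set.mem_ofPred_eq, Edv_sq, div_pos_iff_of_pos_right (sqc hn.1)]
  have hi' : Tendsto (fun N : ℕ => (((Finset.Icc 1 N).filter (fun n : ℕ => 0 < Dq n)).card : ℝ) / N) atTop
      (𝓝 ((μ : Measure (Fin 1 → ℝ)).real {x : Fin 1 → ℝ | 0 < x 0})) := by
    refine hi.congr (fun N => ?_)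
    rw [← e1 N]
  have hp' : Tendsto (fun N : ℕ => (((Finset.Icc 1 N).filter (fun p : ℕ => p.Prime ∧ 0 < Dq p)).card : ℝ)
      / ((Finset.Icc 1 N).filter Nat.Prime).card) atTop
      (𝓝 ((μ : Measure (Fin 1 → ℝ)).real {x : Fin 1 → ℝ | 0 < x 0})) := by
    refine hp.congr (fun N => ?_)
    rw [← e2 N]
  have hdd : Tendsto (fun N : ℕ => (((Finset.Icc 1 N).filter (fun n : ℕ => 0 < Dq n)).card : ℝ) / N) atTop (𝓝 d) := by
    rw [Metric.tendsto_atTop]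
    intro η hη
    obtain ⟨N0, h⟩ := hd3 1 one_pos (η / 2) (by positivity)
    refine ⟨N0, fun N hN => ?_⟩
    have h1 := h N hN 0 (by
      rw [Nat.cast_zero, Real.zero_rpow (by norm_num)]; exact Nat.cast_nonneg _)
    rw [show Finset.Ioc 0 (0 + N) = Finset.Icc 1 N from by ext x; simp; omega] at h1
    rw [Real.dist_eq]
    exact lt_of_le_of_lt h1 (by linarith)
  have hd : (μ : Measure (Fin 1 → ℝ)).real {x : Fin 1 → ℝ | 0 < x 0} = d := tendsto_nhds_unique hi' hdd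
  rw [hd] at hp'
  -- the means
  obtain ⟨hm1, hm2⟩ := hμ3 (fun x => x 0) (continuous_apply 0) ⟨1, fun x => by
    rw [one_mul, Fin.sum_univ_one]
    have := sq_nonneg (|x 0| - 1)
    rw [← sq_abs (x 0)]
    nlinarith [abs_nonneg (x 0)]⟩
  simp only [Edv_sq] at hm1 hm2
  obtain ⟨hs1, hs2⟩ := hμ3 (fun x => x 0 ^ 2) ((continuous_apply 0).pow 2) ⟨1, fun x => by
    rw [one_mul, Fin.sum_univ_one, abs_of_nonneg (sq_nonneg _)]
    linarith⟩
  simp only [Edv_sq] at hs1 hs2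
  obtain ⟨ν, g', -, -, -, k4, k5, k6, -, -, -, k9⟩ := Pool.Agent.H383.Div.distr3 Pool.Agent.H383.Div.vor
    (a := 1) (b := 2) (c := 1) one_pos (fun n => by positivity)
  have hval : ∫ x, x ∂(ν : Measure ℝ) = (1 / (2 * Real.pi)) * ∑' k : ℕ, ((k ^ 2).divisors.card : ℝ) * (k : ℝ) ^ (-(3 / 2) : ℝ) := by
    rw [k9, mean_sq]
  have hshift : Tendsto (fun N : ℕ => (∑ n ∈ Finset.range N, Dq (n+1) / √((n+1 : ℕ) : ℝ)) / N) atTop (𝓝 (∫ x, x ∂(ν : Measure ℝ))) := by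
    rw [Metric.tendsto_atTop]
    intro η hη
    obtain ⟨N0, h⟩ := k6 (fun x => x) continuous_id ⟨1, fun x => by
      rw [one_mul]
      have := sq_nonneg (|x| - 1)
      rw [← sq_abs x]
      nlinarith [abs_nonneg x]⟩ 1 one_pos (η / 2) (by positivity)
    refine ⟨N0, fun N hN => ?_⟩
    have h1 := h N hN 0 (by
      rw [Nat.cast_zero, Real.zero_rpow (by norm_num)]; exact Nat.cast_nonneg _)
    rw [Nat.zero_add, ← Finset.range_eq_Ico] at h1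
    have e : ∀ n : ℕ, Pool.Agent.H383.Div.Dx (1 * (n:ℝ)^2 + 2 * n + 1) / (1 * (n:ℝ)^2 + 2 * n + 1) ^ (1/4:ℝ) =
        Dq (n+1) / √((n+1 : ℕ) : ℝ) := by
      intro n
      have e1 : 1 * (n:ℝ)^2 + 2 * n + 1 = ((1 : ℕ) : ℝ) * ((n + 1 : ℕ) : ℝ) ^ 2 + 0 * ((n + 1 : ℕ) : ℝ) + 0 := by
        push_cast; ring
      rw [← Edv_sq (n+1), ← e1]
      rfl
    simp only [e] at h1
    rw [Real.dist_eq]
    exact lt_of_le_of_lt h1 (by linarith)
  have hm : ∫ x, x 0 ∂(μ : Measure (Fin 1 → ℝ)) = ∫ x, x ∂(ν : Measure ℝ) := by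
    refine tendsto_nhds_unique (hm1.congr (fun N => ?_)) hshift
    rw [sum_Icc_range]
  have hshift2 : ∀ ε : ℝ, 0 < ε → ∀ η : ℝ, 0 < η → ∃ N₀ : ℕ, ∀ N : ℕ, N₀ ≤ N → ∀ k : ℕ, (k : ℝ) ^ (1 / 2 + ε) ≤ N →
        |(∑ n ∈ Finset.Ioc k (k + N), Dq n ^ 2 / (n : ℝ)) / N - ∫ x, x ^ 2 ∂(ν : Measure ℝ)| ≤ η := by
    intro ε hε η hη
    obtain ⟨N0, h⟩ := k6 (fun x => x ^ 2) (continuous_pow 2) ⟨1, fun x => by
      rw [one_mul, abs_of_nonneg (sq_nonneg _)]; linarith⟩ ε hε η hη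
    refine ⟨N0, fun N hN k hk => ?_⟩
    have h1 := h N hN k hk
    have e : ∑ n ∈ Finset.Ico k (k + N), (Pool.Agent.H383.Div.Dx (1 * (n:ℝ)^2 + 2 * n + 1) / (1 * (n:ℝ)^2 + 2 * n + 1) ^ (1/4:ℝ)) ^ 2 =
        ∑ n ∈ Finset.Ioc k (k + N), Dq n ^ 2 / (n : ℝ) := by
      have e0 : Finset.Ioc k (k + N) = (Finset.Ico k (k + N)).image (fun n => n + 1) := by
        ext n
        simp only [Finset.mem_Ioc, Finset.mem_image, Finset.mem_Ico]
        constructor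
        · rintro ⟨a1, a2⟩
          exact ⟨n - 1, ⟨by omega, by omega⟩, by omega⟩
        · rintro ⟨m, ⟨a1, a2⟩, rfl⟩
          omega
      rw [e0, Finset.sum_image (fun a _ b _ h => by simpa using h)]
      apply Finset.sum_congr rfl
      intro n _
      have e1 : 1 * (n:ℝ)^2 + 2 * n + 1 = ((1 : ℕ) : ℝ) * ((n + 1 : ℕ) : ℝ) ^ 2 + 0 * ((n + 1 : ℕ) : ℝ) + 0 := by
        push_cast; ring
      have e2 : Dq (n + 1) ^ 2 / ((n + 1 : ℕ) : ℝ) = (Dq (n+1) / √((n+1 : ℕ) : ℝ)) ^ 2 := by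
        rw [div_pow, Real.sq_sqrt (Nat.cast_nonneg _)]
      rw [e2, ← Edv_sq (n+1), ← e1]
      rfl
    rw [e] at h1
    exact h1
  have hs : ∫ x, x 0 ^ 2 ∂(μ : Measure (Fin 1 → ℝ)) = ∫ x, x ^ 2 ∂(ν : Measure ℝ) := by
    refine tendsto_nhds_unique hs1 ?_
    rw [Metric.tendsto_atTop]
    intro η hη
    obtain ⟨N0, h⟩ := hshift2 1 one_pos (η / 2) (by positivity)
    refine ⟨N0, fun N hN => ?_⟩
    have h1 := h N hN 0 (by
      rw [Nat.cast_zero, Real.zero_rpow (by norm_num)]; exact Nat.cast_nonneg _)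
    rw [show Finset.Ioc 0 (0 + N) = Finset.Icc 1 N from by ext x; simp; omega] at h1
    rw [Real.dist_eq]
    have e : ∀ n : ℕ, (Dq n / √(n:ℝ)) ^ 2 = Dq n ^ 2 / (n : ℝ) := by
      intro n
      rw [div_pow, Real.sq_sqrt (Nat.cast_nonneg _)]
    simp only [e]
    exact lt_of_le_of_lt h1 (by linarith)
  have hV : 0 < ∫ x, x ^ 2 ∂(ν : Measure ℝ) := by
    rw [integral_pos_iff_support_of_nonneg (fun x => sq_nonneg x) k5]
    refine lt_of_lt_of_le (k4 1 2 (by norm_num)) (measure_mono ?_)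
    intro x hx
    rw [Function.mem_support]
    have : (0:ℝ) < x := by linarith [hx.1]
    positivity
  rw [hm, hval] at hm1 hm2
  rw [hs] at hs2
  refine ⟨d, hd1, hd2, hd3, hp', hm1, hm2, _, hV, hshift2, ?_⟩
  refine hs2.congr (fun N => ?_)
  congr 1
  apply Finset.sum_congr rfl
  intro p _
  rw [div_pow, Real.sq_sqrt (Nat.cast_nonneg _)]

/-- the series of the mean converges and is positive -/
theorem series_pos : Summable (fun k : ℕ => ((k ^ 2).divisors.card : ℝ) * (k : ℝ) ^ (-(3 / 2) : ℝ)) ∧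
    0 < ∑' k : ℕ, ((k ^ 2).divisors.card : ℝ) * (k : ℝ) ^ (-(3 / 2) : ℝ) := by
  have h : Summable (fun k : ℕ => ((k ^ 2).divisors.card : ℝ) * (k : ℝ) ^ (-(3 / 2) : ℝ)) :=
    Pool.Agent.H732R2.Dv.S_hasSum.summable
  refine ⟨h, h.tsum_pos (fun k => by positivity) 1 ?_⟩
  simp

end Pool.Agent.TH397.DB
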